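import Pool.Agent.R627.AC.Stm

/-! AC6: lifting through an injective function with an a priori bound (helper619 for helper627) -/

namespace Pool.Agent.R627.AC

open Metric Filter Topology

/-- the inverse of an injective holomorphic function is differentiable on the image -/
theorem inv_hasDerivAt {Q : ℂ → ℂ} (hQ : DifferentiableOn ℂ Q (ball (0:ℂ) 1))
    (hinj : Set.InjOn Q (ball (0:ℂ) 1)) (hder : ∀ z ∈ ball (0:ℂ) 1, deriv Q z ≠ 0)
    {z : ℂ} (hz : z ∈ ball (0:ℂ) 1) :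
    Q '' ball (0:ℂ) 1 ∈ 𝓝 (Q z) ∧
    HasDerivAt (Function.invFunOn Q (ball (0:ℂ) 1)) (deriv Q z)⁻¹ (Q z) := by
  have hop : ball (0:ℂ) 1 ∈ 𝓝 z := isOpen_ball.mem_nhds hz
  have han : AnalyticAt ℂ Q z := hQ.analyticAt hop
  have hstr : HasStrictDerivAt Q (deriv Q z) z := han.hasStrictDerivAt
  have hmap : Filter.map Q (𝓝 z) = 𝓝 (Q z) := hstr.map_nhds_eq (hder z hz)
  have hP : ∀ x ∈ ball (0:ℂ) 1, Function.invFunOn Q (ball (0:ℂ) 1) (Q x) = x :=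
    fun x hx => hinj.leftInvOn_invFunOn hx
  have himg : ∀ N ∈ 𝓝 z, Q '' N ∈ 𝓝 (Q z) := by
    intro N hN
    rw [← hmap]
    exact Filter.image_mem_map hN
  refine ⟨himg _ hop, ?_⟩
  apply HasDerivAt.of_local_left_inverse (f := Q)
  · rw [ContinuousAt, hP z hz]
    intro N hN
    rw [Filter.mem_map]
    refine Filter.mem_of_superset (himg _ (Filter.inter_mem hN hop)) ?_
    rintro _ ⟨x, ⟨hxN, hxD⟩, rfl⟩
    show Function.invFunOn Q (ball (0:ℂ) 1) (Q x) ∈ N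
    rw [hP x hxD]
    exact hxN
  · rw [hP z hz]
    exact hstr.hasDerivAt
  · exact hder z hz
  · filter_upwards [himg _ hop] with w hw
    exact Function.invFunOn_eq hw

/-- AC6 -/
theorem lift : StLift := by
  intro Q g hQ hg h0 hinj hder hbd
  have hDo : IsOpen (ball (0:ℂ) 1) := isOpen_ball
  have hP : ∀ x ∈ ball (0:ℂ) 1, Function.invFunOn Q (ball (0:ℂ) 1) (Q x) = x :=
    fun x hx => hinj.leftInvOn_invFunOn hx
  have h0D : (0:ℂ) ∈ ball (0:ℂ) 1 := by simp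
  have hUo : IsOpen (Q '' ball (0:ℂ) 1) := by
    rw [isOpen_iff_mem_nhds]
    rintro _ ⟨z, hz, rfl⟩
    exact (inv_hasDerivAt hQ hinj hder hz).1
  have hgd : ∀ z ∈ ball (0:ℂ) 1, DifferentiableAt ℂ g z := fun z hz =>
    (hg z hz).differentiableAt (hDo.mem_nhds hz)
  -- lifting on a smaller ball
  have hloc : ∀ r : ℝ, 0 < r → r ≤ 1 → (∀ z ∈ ball (0:ℂ) r, g z ∈ Q '' ball (0:ℂ) 1) →
      DifferentiableOn ℂ (fun z => Function.invFunOn Q (ball (0:ℂ) 1) (g z)) (ball (0:ℂ) r) ∧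
      (fun z => Function.invFunOn Q (ball (0:ℂ) 1) (g z)) 0 = 0 ∧
      (∀ z ∈ ball (0:ℂ) r, Function.invFunOn Q (ball (0:ℂ) 1) (g z) ∈ ball (0:ℂ) 1) ∧
      (∀ z ∈ ball (0:ℂ) r, Q (Function.invFunOn Q (ball (0:ℂ) 1) (g z)) = g z) := by
    intro r hr0 hr1 hr
    refine ⟨?_, ?_, ?_, ?_⟩
    · intro z hz
      obtain ⟨x, hx, hxe⟩ := hr z hz
      have h1 := (inv_hasDerivAt hQ hinj hder hx).2
      rw [hxe] at h1
      have h2 : DifferentiableAt ℂ g z := hgd z (ball_subset_ball hr1 hz)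
      exact (h1.differentiableAt.comp z h2).differentiableWithinAt
    · show Function.invFunOn Q (ball (0:ℂ) 1) (g 0) = 0
      rw [h0, hP 0 h0D]
    · intro z hz
      exact Function.invFunOn_mem (hr z hz)
    · intro z hz
      exact Function.invFunOn_eq (hr z hz)
  -- `g` maps the disc into the image of `Q`
  have hmain : ∀ z ∈ ball (0:ℂ) 1, g z ∈ Q '' ball (0:ℂ) 1 := by
    by_contra hcon
    push Not at hcon
    obtain ⟨z₀, hz₀, hz₀U⟩ := hcon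
    have hz₀1 : ‖z₀‖ < 1 := by simpa using hz₀
    have hsub : closedBall (0:ℂ) ‖z₀‖ ⊆ ball (0:ℂ) 1 := closedBall_subset_ball hz₀1
    have hgc : ContinuousOn g (closedBall (0:ℂ) ‖z₀‖) := hg.continuousOn.mono hsub
    have hCcl : IsClosed (closedBall (0:ℂ) ‖z₀‖ ∩ g ⁻¹' (Q '' ball (0:ℂ) 1)ᶜ) :=
      hgc.preimage_isClosed_of_isClosed isClosed_closedBall hUo.isClosed_compl
    have hCco : IsCompact (closedBall (0:ℂ) ‖z₀‖ ∩ g ⁻¹' (Q '' ball (0:ℂ) 1)ᶜ) :=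
      (isCompact_closedBall (0:ℂ) ‖z₀‖).of_isClosed_subset hCcl Set.inter_subset_left
    obtain ⟨z₁, hz₁, hmin⟩ := hCco.exists_isMinOn ⟨z₀, by simp, hz₀U⟩
      (f := fun z => ‖z‖) (by fun_prop)
    have hz₁le : ‖z₁‖ ≤ ‖z₀‖ := by simpa using hz₁.1
    have hz₁1 : ‖z₁‖ < 1 := lt_of_le_of_lt hz₁le hz₀1
    have hz₁U : g z₁ ∉ Q '' ball (0:ℂ) 1 := hz₁.2
    have hz₁0 : z₁ ≠ 0 := by
      rintro rfl
      apply hz₁U
      rw [h0]
      exact ⟨0, h0D, rfl⟩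
    have hρ : 0 < ‖z₁‖ := norm_pos_iff.2 hz₁0
    have hin : ∀ z ∈ ball (0:ℂ) ‖z₁‖, g z ∈ Q '' ball (0:ℂ) 1 := by
      intro z hz
      by_contra hzU
      have hzn : ‖z‖ < ‖z₁‖ := by simpa using hz
      have h1 : ‖z₁‖ ≤ ‖z‖ := hmin (show z ∈ closedBall (0:ℂ) ‖z₀‖ ∩
        g ⁻¹' (Q '' ball (0:ℂ) 1)ᶜ from ⟨by simp; linarith, hzU⟩)
      linarith
    obtain ⟨w1, w2, w3, w4⟩ := hloc ‖z₁‖ hρ hz₁1.le hin
    have hb := hbd ‖z₁‖ (fun z => Function.invFunOn Q (ball (0:ℂ) 1) (g z)) hρ hz₁1.le w1 w2 w3 w4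
    have hsub1 : closedBall (0:ℂ) ‖z₁‖ ⊆ ball (0:ℂ) 1 := closedBall_subset_ball hz₁1
    have hK : IsClosed (Q '' closedBall (0:ℂ) ‖z₁‖) :=
      ((isCompact_closedBall (0:ℂ) ‖z₁‖).image_of_continuousOn
        (hQ.continuousOn.mono hsub1)).isClosed
    have himg : g '' ball (0:ℂ) ‖z₁‖ ⊆ Q '' closedBall (0:ℂ) ‖z₁‖ := by
      rintro _ ⟨z, hz, rfl⟩
      refine ⟨Function.invFunOn Q (ball (0:ℂ) 1) (g z), ?_, w4 z hz⟩
      have h1 := hb z hz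
      have hzn : ‖z‖ < ‖z₁‖ := by simpa using hz
      rw [mem_closedBall_zero_iff]
      exact h1.trans hzn.le
    have hz₁cl : z₁ ∈ closure (ball (0:ℂ) ‖z₁‖) := by
      rw [closure_ball (0:ℂ) hρ.ne']
      simp
    have hcw : ContinuousWithinAt g (ball (0:ℂ) ‖z₁‖) z₁ :=
      (hgd z₁ (by simpa using hz₁1)).continuousAt.continuousWithinAt
    have h5 : g z₁ ∈ closure (g '' ball (0:ℂ) ‖z₁‖) := hcw.mem_closure_image hz₁cl
    have h6 : g z₁ ∈ Q '' closedBall (0:ℂ) ‖z₁‖ := closure_minimal himg hK h5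
    exact hz₁U (Set.image_mono hsub1 h6)
  obtain ⟨w1, w2, w3, w4⟩ := hloc 1 one_pos le_rfl hmain
  exact ⟨fun z => Function.invFunOn Q (ball (0:ℂ) 1) (g z), w1, w2,
    hbd 1 _ one_pos le_rfl w1 w2 w3 w4, w4⟩

end Pool.Agent.R627.AC
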